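import Pool.Agent.helper55.GL.Spec

set_option autoImplicit false

namespace Pool.Agent.GL

open SimpleGraph

theorem UP1_cp {V : Type} [Fintype V] (H : SimpleGraph V) (c : V → Bool)
    (h3 : Nat.card {a : V // c a = true} ≤ 3) {n : ℕ} (B : Finset (Fin n × Fin n))
    (R C : Finset (Fin n)) (hR : R.card = 3) (hC : Fintype.card V ≤ C.card)
    (hRC : ∀ u ∈ R, ∀ v ∈ C, (u, v) ∈ B) : Cp H c Set.univ B := by
  classical
  have h1 : Fintype.card {a : V // c a = true} ≤ Fintype.card R := by
    rw [Fintype.card_coe, hR, ← Nat.card_eq_fintype_card]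
    exact h3
  have h2 : Fintype.card {a : V // c a = false} ≤ Fintype.card C := by
    rw [Fintype.card_coe]
    exact (Fintype.card_subtype_le _).trans hC
  obtain ⟨f⟩ := Function.Embedding.nonempty_of_card_le h1
  obtain ⟨g⟩ := Function.Embedding.nonempty_of_card_le h2
  refine ⟨fun a => if h : c a = true then (f ⟨a, h⟩).1 else
    (g ⟨a, by simpa using h⟩).1, ?_, ?_⟩
  · intro a _ b _ hab h
    by_cases ha : c a = true
    · have hb : c b = true := by rw [← hab, ha]
      simp only [ha, hb, dif_pos] at h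
      have := f.injective (Subtype.ext h)
      exact congrArg Subtype.val this
    · have hb : ¬ c b = true := by rw [← hab]; exact ha
      simp only [ha, hb] at h
      have := g.injective (Subtype.ext h)
      exact congrArg Subtype.val this
  · intro a _ b _ _ ha hb
    have hb' : ¬ c b = true := by rw [hb]; decide
    simp only [ha, dif_pos, dif_neg hb']
    exact hRC _ (f ⟨a, ha⟩).2 _ (g ⟨b, _⟩).2

theorem UP1_ch (d : ℕ) : d ^ 3 ≤ 27 * d.choose 3 + 27 := by
  rcases Nat.lt_or_ge d 3 with h | h
  · have : d ^ 3 ≤ 27 := by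
      calc d ^ 3 ≤ 3 ^ 3 := Nat.pow_le_pow_left h.le 3
        _ = 27 := by norm_num
    omega
  · obtain ⟨k, rfl⟩ := Nat.exists_eq_add_of_le h
    have h1 := Nat.descFactorial_eq_factorial_mul_choose (3 + k) 3
    have h2 : (3 + k).descFactorial 3 = (3 + k) * (2 + k) * (1 + k) := by
      simp only [Nat.descFactorial_succ, Nat.descFactorial_zero]
      rw [show 3 + k - 2 = 1 + k by omega, show 3 + k - 1 = 2 + k by omega, Nat.sub_zero]
      ring
    rw [h2, show Nat.factorial 3 = 6 by rfl] at h1
    have h3 : 2 * (3 + k) ^ 3 ≤ 9 * ((3 + k) * (2 + k) * (1 + k)) := by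
      nlinarith [Nat.zero_le k, Nat.zero_le (k * k), Nat.zero_le (k * k * k)]
    omega

theorem UP1_sum {n : ℕ} (d : Fin n → ℕ) : (∑ v, d v) ^ 3 ≤ n ^ 2 * ∑ v, d v ^ 3 := by
  rcases Nat.eq_zero_or_pos n with rfl | hn
  · simp
  · have h := pow_sum_div_card_le_sum_pow (s := (Finset.univ : Finset (Fin n)))
      (f := fun v => (d v : ℝ)) (fun v _ => Nat.cast_nonneg _) 2
    have hn' : (0 : ℝ) < (n : ℝ) ^ 2 := by positivity
    rw [Finset.card_univ, Fintype.card_fin, div_le_iff₀ hn'] at h
    have h1 : (((∑ v, d v) ^ 3 : ℕ) : ℝ) ≤ ((n ^ 2 * ∑ v, d v ^ 3 : ℕ) : ℝ) := by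
      push_cast
      rw [mul_comm]
      exact h
    exact_mod_cast h1

theorem UP1 (hBAS : BAS_stmt) : UP1_stmt := by
  classical
  intro V _ H c _ h3
  refine ⟨27 * Fintype.card V + 27, fun n => ?_⟩
  set s := Fintype.card V with hs
  have key : ∀ B : Finset (Fin n × Fin n), ¬ Cp H c Set.univ B → B.card ^ 3 ≤ (27 * s + 27) * n ^ 5 := by
    intro B hB
    set N : Fin n → Finset (Fin n) := fun v => Finset.univ.filter fun u => (u, v) ∈ B with hN
    have h1 : ∀ R ∈ Finset.powersetCard 3 (Finset.univ : Finset (Fin n)),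
        (Finset.univ.filter fun v => R ⊆ N v).card ≤ s := by
      intro R hR
      by_contra h
      rw [not_le] at h
      refine hB (UP1_cp H c h3 B R _ (Finset.mem_powersetCard.1 hR).2 h.le fun u hu v hv => ?_)
      have := (Finset.mem_filter.1 hv).2 hu
      simpa [hN] using this
    have h2 : ∑ v, ((N v).card.choose 3) ≤ s * n ^ 3 := by
      have h4 : ∑ v, ((N v).card.choose 3) =
          ∑ v : Fin n, ((Finset.powersetCard 3 (Finset.univ : Finset (Fin n))).filter
            fun R => R ⊆ N v).card := by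
        refine Finset.sum_congr rfl fun v _ => ?_
        rw [← Finset.card_powersetCard]
        congr 1
        ext R
        simp [Finset.mem_powersetCard, and_comm]
      rw [h4]
      have h5 := Finset.sum_card_bipartiteAbove_eq_sum_card_bipartiteBelow
        (fun (v : Fin n) (R : Finset (Fin n)) => R ⊆ N v) (s := Finset.univ)
        (t := Finset.powersetCard 3 (Finset.univ : Finset (Fin n)))
      change ∑ v : Fin n, (Finset.bipartiteAbove (fun (v : Fin n) (R : Finset (Fin n)) => R ⊆ N v) _ v).card ≤ _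
      rw [h5]
      calc _ ≤ ∑ R ∈ Finset.powersetCard 3 (Finset.univ : Finset (Fin n)), s :=
            Finset.sum_le_sum fun R hR => h1 R hR
        _ = n.choose 3 * s := by
            rw [Finset.sum_const, Finset.card_powersetCard, Finset.card_univ, Fintype.card_fin,
              smul_eq_mul]
        _ ≤ n ^ 3 * s := Nat.mul_le_mul_right _ (Nat.choose_le_pow n 3)
        _ = _ := mul_comm _ _
    have h4 : B.card = ∑ v, (N v).card := by
      have h5 : B.card = ∑ v : Fin n, (B.filter fun x => x.2 = v).card :=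
        Finset.card_eq_sum_card_fiberwise fun x _ => Finset.mem_univ _
      rw [h5]
      refine Finset.sum_congr rfl fun v _ => ?_
      refine Finset.card_bij (fun x _ => x.1) ?_ ?_ ?_
      · intro x hx
        rw [Finset.mem_filter] at hx
        simp only [hN, Finset.mem_filter, Finset.mem_univ, true_and]
        rw [← hx.2]
        exact hx.1
      · intro x hx y hy h
        rw [Finset.mem_filter] at hx hy
        exact Prod.ext h (hx.2.trans hy.2.symm)
      · intro u hu
        simp only [hN, Finset.mem_filter, Finset.mem_univ, true_and] at hu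
        exact ⟨(u, v), by simp [hu], rfl⟩
    rcases Nat.eq_zero_or_pos n with hn | hn
    · subst hn
      rw [h4]
      simp
    calc B.card ^ 3 = (∑ v, (N v).card) ^ 3 := by rw [h4]
      _ ≤ n ^ 2 * ∑ v, (N v).card ^ 3 := UP1_sum _
      _ ≤ n ^ 2 * ∑ v, (27 * (N v).card.choose 3 + 27) :=
          Nat.mul_le_mul_left _ (Finset.sum_le_sum fun v _ => UP1_ch _)
      _ = n ^ 2 * (27 * ∑ v, (N v).card.choose 3 + 27 * n) := by
          rw [Finset.sum_add_distrib, ← Finset.mul_sum, Finset.sum_const, Finset.card_univ,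
            Fintype.card_fin, smul_eq_mul, mul_comm n 27]
      _ ≤ n ^ 2 * (27 * (s * n ^ 3) + 27 * n ^ 3) := by
          refine Nat.mul_le_mul_left _ (Nat.add_le_add (Nat.mul_le_mul_left _ h2)
            (Nat.mul_le_mul_left _ ?_))
          calc n = n ^ 1 := (pow_one n).symm
            _ ≤ n ^ 3 := Nat.pow_le_pow_right hn (by norm_num)
      _ = _ := by ring
  rcases Nat.eq_zero_or_pos (exs n H c Set.univ) with h0 | h0
  · rw [h0]; simp
  · have h1 := ((hBAS V H c).1 n Set.univ (exs n H c Set.univ - 1)).not.1 (by omega)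
    push Not at h1
    obtain ⟨B, hB, hB'⟩ := h1
    calc exs n H c Set.univ ^ 3 ≤ B.card ^ 3 := Nat.pow_le_pow_left (by omega) 3
      _ ≤ _ := key B hB

end Pool.Agent.GL
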